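import Pool.Agent.Run7.h247.SG.Desc

/-!
# Contraction of a space with two poles (for MP_3eff7f_gt)
-/

set_option autoImplicit false

open Set Topology

namespace Pool.Agent.Run7.h247.SG

open Pool.Agent.Y489.GE

section

variable {X : Type} [MetricSpace X] [CompactSpace X] {p q : X} {F : Mid p q → ℝ → X}

/-- a family of contractions of the loops `F v`, `F v₀` backwards -/
structure Shrink (F : Mid p q → ℝ → X) (v₀ : Mid p q) (P : Mid p q → ℝ → ℝ → X) : Prop where
  cont : Continuous fun z : Mid p q × ℝ × ℝ => P z.1 z.2.1 z.2.2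
  upper : ∀ v, ∀ t ∈ Icc (0 : ℝ) 1, P v 0 (t / 2) = F v t
  lower : ∀ v, ∀ t ∈ Icc (0 : ℝ) 1, P v 0 (1 - t / 2) = F v₀ t
  per : ∀ v σ θ, P v σ (θ + 1) = P v σ θ
  const : ∀ v θ θ', P v 1 θ = P v 1 θ'

/-- the time along the tracks of the poles -/
noncomputable def sg (t : ℝ) : ℝ := min (3 * t) (3 * (1 - t))

/-- the angle in the middle homotopy -/
noncomputable def om (t : ℝ) : ℝ := max 0 (min 1 (3 * t - 1)) / 2

theorem sg_cont : Continuous sg := by unfold sg; fun_prop

theorem om_cont : Continuous om := by unfold om; fun_prop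

theorem contr (h : Fam p q F) (hX : GeodSpace X) (v₀ : Mid p q) (P : Mid p q → ℝ → ℝ → X)
    (hP : Shrink F v₀ P) : ContractibleSpace X := by
  have hd : 0 < dist p q := dist_pos.2 h.poles.ne
  have h0I : (0 : ℝ) ∈ Icc (0 : ℝ) 1 := by constructor <;> norm_num
  have h1I : (1 : ℝ) ∈ Icc (0 : ℝ) 1 := by constructor <;> norm_num
  have hT : ∀ x, dist p x / dist p q ∈ Icc (0 : ℝ) 1 := by
    intro x
    have h2 := h.poles.sum x
    have h3 : 0 ≤ dist x q := dist_nonneg
    exact ⟨div_nonneg dist_nonneg hd.le, (div_le_one hd).2 (by linarith)⟩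
  choose V hV using h.surj hX
  have P00 : ∀ v, P v 0 0 = p := by
    intro v
    have e := hP.upper v 0 h0I
    rw [zero_div] at e
    rw [e, h.zero]
  have P0h : ∀ v, P v 0 (1 / 2) = q := by
    intro v
    have e := hP.upper v 1 h1I
    rw [e, h.one]
  have P01 : ∀ v, P v 0 1 = p := by
    intro v
    have e := hP.lower v 0 h0I
    rw [zero_div, sub_zero] at e
    rw [e, h.zero]
  have sg0 : sg 0 = 0 := by unfold sg; norm_num
  have sg1 : sg 1 = 0 := by unfold sg; norm_num
  have om0 : om 0 = 0 := by unfold om; norm_num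
  have om1 : om 1 = 1 / 2 := by unfold om; norm_num
  have sgnn : ∀ t ∈ Icc (0 : ℝ) 1, 0 ≤ sg t := fun t ht =>
    le_min (by linarith [ht.1]) (by linarith [ht.2])
  -- the three homotopies
  set KA : Mid p q → ℝ → ℝ → X := fun v t s => P v (min s (sg t)) (t / 2) with hKA
  set KM : Mid p q → ℝ → ℝ → X := fun v t s =>
    P v (min 1 (sg t)) (om t + (1 - 2 * s) * (t / 2 - om t)) with hKM
  set KB : Mid p q → ℝ → ℝ → X := fun v t s => P v (min (1 - s) (sg t)) (1 - t / 2) with hKB
  have cA : Continuous fun z : Mid p q × ℝ × ℝ => KA z.1 z.2.1 z.2.2 := by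
    have := sg_cont
    exact hP.cont.comp (continuous_fst.prodMk ((by fun_prop :
      Continuous fun z : Mid p q × ℝ × ℝ => min z.2.2 (sg z.2.1)).prodMk (by fun_prop)))
  have cM : Continuous fun z : Mid p q × ℝ × ℝ => KM z.1 z.2.1 z.2.2 := by
    have := sg_cont
    have := om_cont
    exact hP.cont.comp (continuous_fst.prodMk ((by fun_prop :
      Continuous fun z : Mid p q × ℝ × ℝ => min 1 (sg z.2.1)).prodMk (by fun_prop)))
  have cB : Continuous fun z : Mid p q × ℝ × ℝ => KB z.1 z.2.1 z.2.2 := by
    have := sg_cont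
    exact hP.cont.comp (continuous_fst.prodMk ((by fun_prop :
      Continuous fun z : Mid p q × ℝ × ℝ => min (1 - z.2.2) (sg z.2.1)).prodMk (by fun_prop)))
  have dA := h.descend KA cA (fun v v' s hs => by
      simp only [hKA, sg0, min_eq_right hs.1, zero_div, P00]) (fun v v' s hs => by
      simp only [hKA, sg1, min_eq_right hs.1, P0h]) V hV
  have dM := h.descend KM cM (fun v v' s hs => by
      simp only [hKM, sg0, om0, zero_div, sub_zero, mul_zero, add_zero,
        min_eq_right (zero_le_one' ℝ), P00]) (fun v v' s hs => by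
      simp only [hKM, sg1, om1, sub_self, mul_zero, add_zero,
        min_eq_right (zero_le_one' ℝ), P0h]) V hV
  have dB := h.descend KB cB (fun v v' s hs => by
      simp only [hKB, sg0, min_eq_right (sub_nonneg.2 hs.2), zero_div, sub_zero, P01])
      (fun v v' s hs => by
      have e : (1 : ℝ) - 1 / 2 = 1 / 2 := by norm_num
      simp only [hKB, sg1, min_eq_right (sub_nonneg.2 hs.2), e, P0h]) V hV
  -- the end maps
  have mk : ∀ K : Mid p q → ℝ → ℝ → X,
      Continuous (fun z : X × unitInterval => K (V z.1) (dist p z.1 / dist p q) z.2) →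
      ∃ f g : C(X, X), (∀ x, f x = K (V x) (dist p x / dist p q) 0) ∧
        (∀ x, g x = K (V x) (dist p x / dist p q) 1) ∧ f.Homotopic g := by
    intro K hK
    refine ⟨⟨fun x => K (V x) (dist p x / dist p q) 0, ?_⟩,
      ⟨fun x => K (V x) (dist p x / dist p q) 1, ?_⟩, fun x => rfl, fun x => rfl, ⟨⟨⟨fun z =>
        K (V z.2) (dist p z.2 / dist p q) z.1, ?_⟩, ?_, ?_⟩⟩⟩
    · exact hK.comp (continuous_id.prodMk (continuous_const (y := (0 : unitInterval))))
    · exact hK.comp (continuous_id.prodMk (continuous_const (y := (1 : unitInterval))))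
    · exact hK.comp (continuous_snd.prodMk continuous_fst)
    · intro x; rfl
    · intro x; rfl
  obtain ⟨fA, gA, hfA, hgA, HA⟩ := mk KA dA
  obtain ⟨fM, gM, hfM, hgM, HM⟩ := mk KM dM
  obtain ⟨fB, gB, hfB, hgB, HB⟩ := mk KB dB
  have e1 : fA = ContinuousMap.id X := by
    ext x
    rw [hfA]
    simp only [hKA, min_eq_left (sgnn _ (hT x))]
    rw [hP.upper _ _ (hT x), hV]
    rfl
  have e2 : gA = fM := by
    ext x
    rw [hgA, hfM]
    simp only [hKA, hKM]
    congr 1
    ring
  have e3 : gM = fB := by
    ext x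
    rw [hgM, hfB]
    simp only [hKM, hKB, sub_zero]
    set t := dist p x / dist p q with ht
    have htI := hT x
    rw [← ht] at htI
    rcases le_total t (1 / 3) with h1 | h1
    · have e : om t = 0 := by
        unfold om
        rw [min_eq_right (by linarith), max_eq_left (by linarith), zero_div]
      rw [e, ← hP.per]
      congr 1
      ring
    · rcases le_total (2 / 3) t with h2 | h2
      · have e : om t = 1 / 2 := by
          unfold om
          rw [min_eq_left (by linarith), max_eq_right zero_le_one]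
        rw [e]
        congr 1
        ring
      · have e : min 1 (sg t) = 1 := by
          unfold sg
          exact min_eq_left (le_min (by linarith) (by linarith))
        rw [e]
        exact hP.const _ _ _
  have cF0 : Continuous fun t : ℝ => F v₀ (ci t) :=
    h.cont.comp (continuous_const.prodMk continuous_id)
  have H4 : gB.Homotopic (ContinuousMap.const X p) := by
    have hgB' : ∀ x, gB x = F v₀ (ci (dist p x / dist p q)) := by
      intro x
      rw [hgB]
      simp only [hKB, sub_self, min_eq_left (sgnn _ (hT x))]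
      rw [hP.lower _ _ (hT x), ci_of (hT x)]
    refine ⟨⟨⟨fun z => F v₀ (ci ((1 - (z.1 : ℝ)) * (dist p z.2 / dist p q))), ?_⟩, ?_, ?_⟩⟩
    · refine cF0.comp ?_
      have : Continuous fun z : unitInterval × X => (z.1 : ℝ) :=
        continuous_subtype_val.comp continuous_fst
      exact (continuous_const.sub this).mul
        ((continuous_const.dist continuous_snd).div_const _)
    · intro x
      simp only [Set.Icc.coe_zero, sub_zero, one_mul]
      exact (hgB' x).symm
    · intro x
      simp only [Set.Icc.coe_one, sub_self, zero_mul]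
      rw [ci_of h0I, h.zero]
      rfl
  have H5 : (ContinuousMap.id X).Homotopic (ContinuousMap.const X p) := by
    rw [← e1]
    refine HA.trans ?_
    rw [e2]
    refine HM.trans ?_
    rw [e3]
    exact HB.trans H4
  exact (contractible_iff_id_nullhomotopic X).2 ⟨p, H5⟩

end

end Pool.Agent.Run7.h247.SG
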