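import Pool.Agent.Run7.h247.SG.Susp

/-!
# Homotopies on a space with two poles (for MP_3eff7f_gt)
-/

set_option autoImplicit false

open Set Topology

namespace Pool.Agent.Run7.h247.SG

open Pool.Agent.Y489.GE

section

variable {X : Type} [MetricSpace X] [CompactSpace X] {p q : X}

instance : CompactSpace (Mid p q) :=
  isCompact_iff_compactSpace.1
    ((isClosed_eq (continuous_const.dist continuous_id) continuous_const).isCompact :
      IsCompact {v : X | dist p v = dist p q / 2})

/-- the properties of the family of geodesics -/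
structure Fam (p q : X) (F : Mid p q → ℝ → X) : Prop where
  poles : Poles X p q
  rel : ∀ v, ∀ t ∈ Icc (0 : ℝ) 1, dist p (F v t) = t * dist p q ∧
      dist v.1 (F v t) = |t - 1 / 2| * dist p q
  len : ∀ v, ∀ s ∈ Icc (0 : ℝ) 1, ∀ t ∈ Icc (0 : ℝ) 1, dist (F v s) (F v t) = |s - t| * dist p q

/-- clamp to `[0, 1]` -/
noncomputable def ci (t : ℝ) : ℝ := max 0 (min 1 t)

theorem ci_mem (t : ℝ) : ci t ∈ Icc (0 : ℝ) 1 := by
  unfold ci
  exact ⟨le_max_left _ _, max_le zero_le_one (min_le_left _ _)⟩

theorem ci_of {t : ℝ} (ht : t ∈ Icc (0 : ℝ) 1) : ci t = t := by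
  unfold ci
  rw [min_eq_right ht.2, max_eq_right ht.1]

theorem ci_cont : Continuous ci := by
  unfold ci
  fun_prop

variable {F : Mid p q → ℝ → X}

theorem Fam.cont (h : Fam p q F) : Continuous fun z : Mid p q × ℝ => F z.1 (ci z.2) := by
  refine cont_of_graph _ {w : (Mid p q × ℝ) × X | dist p w.2 = ci w.1.2 * dist p q ∧
    dist w.1.1.1 w.2 = |ci w.1.2 - 1 / 2| * dist p q} ?_ ?_
  · have hc : Continuous fun w : (Mid p q × ℝ) × X => ci w.1.2 :=
      ci_cont.comp (continuous_snd.comp continuous_fst)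
    refine (isClosed_eq (continuous_const.dist continuous_snd)
      (hc.mul continuous_const)).inter (isClosed_eq ((continuous_subtype_val.comp
        (continuous_fst.comp continuous_fst)).dist continuous_snd)
        (((hc.sub continuous_const).abs).mul continuous_const))
  · rintro ⟨v, t⟩ x
    have h1 := h.rel v (ci t) (ci_mem t)
    constructor
    · rintro ⟨h2, h3⟩
      exact h.poles.rel_unique v.2 h2 h3 h1.1 h1.2
    · intro h2
      rw [h2]
      exact h1

theorem Fam.zero (h : Fam p q F) (v : Mid p q) : F v 0 = p := by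
  have h1 := (h.rel v 0 ⟨le_rfl, zero_le_one⟩).1
  rw [zero_mul] at h1
  exact (dist_eq_zero.1 h1).symm

theorem Fam.one (h : Fam p q F) (v : Mid p q) : F v 1 = q := by
  have h1 := (h.rel v 1 ⟨zero_le_one, le_rfl⟩).1
  have h2 := h.poles.sum (F v 1)
  rw [one_mul] at h1
  have h3 : dist (F v 1) q = 0 := by linarith
  exact dist_eq_zero.1 h3

/-- all points are on the geodesics of the family -/
theorem Fam.surj (h : Fam p q F) (hX : GeodSpace X) (x : X) :
    ∃ v : Mid p q, F v (dist p x / dist p q) = x := by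
  have hd : 0 < dist p q := dist_pos.2 h.poles.ne
  have hsum := h.poles.sum x
  set t := dist p x / dist p q with ht
  have htd : t * dist p q = dist p x := div_mul_cancel₀ _ hd.ne'
  have ht0 : 0 ≤ t := div_nonneg dist_nonneg hd.le
  have hxq0 : 0 ≤ dist x q := dist_nonneg
  have ht1 : t ≤ 1 := by rw [ht, div_le_one hd]; linarith
  have main : ∃ v : X, dist p v = dist p q / 2 ∧ dist v x = |t - 1 / 2| * dist p q := by
    rcases le_total t (1 / 2) with h1 | h1
    · obtain ⟨b, hb0, hb1, hb⟩ := hX x q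
      have hxq : dist x q = (1 - t) * dist p q := by linarith
      set s := (1 / 2 - t) / (1 - t) with hs
      have h1t : 0 < 1 - t := by linarith
      have hsI : s ∈ Icc (0 : ℝ) 1 := ⟨div_nonneg (by linarith) h1t.le,
        (div_le_one h1t).2 (by linarith)⟩
      have hst : s * (1 - t) = 1 / 2 - t := div_mul_cancel₀ _ h1t.ne'
      have e1 : dist x (b s) = (1 / 2 - t) * dist p q := by
        conv_lhs => rw [← hb0]
        rw [hb 0 ⟨le_rfl, zero_le_one⟩ s hsI, zero_sub, abs_neg, abs_of_nonneg hsI.1, hxq,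
          ← mul_assoc, hst]
      have e2 : dist (b s) q = dist p q / 2 := by
        conv_lhs => rw [← hb1]
        rw [hb s hsI 1 ⟨zero_le_one, le_rfl⟩, abs_of_nonpos (by linarith [hsI.2]), hxq]
        linear_combination (-(dist p q)) * hst
      refine ⟨b s, ?_, ?_⟩
      · have := h.poles.sum (b s); linarith
      · rw [dist_comm, e1, abs_of_nonpos (by linarith)]; ring
    · obtain ⟨a, ha0, ha1, ha⟩ := hX p x
      have htpos : 0 < t := by linarith
      set s := 1 / (2 * t) with hs
      have hst : s * t = 1 / 2 := by rw [hs]; field_simp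
      have hsI : s ∈ Icc (0 : ℝ) 1 := ⟨by positivity, by rw [hs, div_le_one (by positivity)]; linarith⟩
      refine ⟨a s, ?_, ?_⟩
      · conv_lhs => rw [← ha0]
        rw [ha 0 ⟨le_rfl, zero_le_one⟩ s hsI, zero_sub, abs_neg, abs_of_nonneg hsI.1, ← htd]
        linear_combination (dist p q) * hst
      · conv_lhs => rw [← ha1]
        rw [ha s hsI 1 ⟨zero_le_one, le_rfl⟩, abs_of_nonpos (by linarith [hsI.2]),
          abs_of_nonneg (by linarith), ← htd]
        linear_combination (-(dist p q)) * hst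
  obtain ⟨v, hv, hvx⟩ := main
  refine ⟨⟨v, hv⟩, ?_⟩
  have h1 := h.rel ⟨v, hv⟩ t ⟨ht0, ht1⟩
  exact h.poles.rel_unique hv h1.1 h1.2 htd.symm hvx

/-- the middle point of a point which is not a pole is unique -/
theorem Fam.inj (h : Fam p q F) {v v' : Mid p q} {t : ℝ} (ht : t ∈ Ioo (0 : ℝ) 1)
    (he : F v t = F v' t) : v = v' := by
  have hd : 0 < dist p q := dist_pos.2 h.poles.ne
  have htI : t ∈ Icc (0 : ℝ) 1 := ⟨ht.1.le, ht.2.le⟩
  have h1 := h.rel v t htI
  have h2 := h.rel v' t htI
  rw [← he] at h2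
  have hvq : dist v.1 q = dist p q / 2 := by have := h.poles.sum v.1; linarith [v.2]
  have hvq' : dist v'.1 q = dist p q / 2 := by have := h.poles.sum v'.1; linarith [v'.2]
  have hxq := h.poles.sum (F v t)
  apply Subtype.ext
  have hv := v.2
  have hv' := v'.2
  have g1 := h1.1
  have g2 := h1.2
  have g3 := h2.2
  rcases le_total t (1 / 2) with h3 | h3
  · rw [abs_of_nonpos (by linarith), dist_comm] at g2 g3
    refine h.poles.uq (F v t) v.1 v'.1 ?_ ?_ ?_ (by rw [g2, g3])
    · intro hh
      rw [hh, dist_self] at g1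
      have := mul_pos ht.1 hd
      linarith
    · rw [g2, hvq]; linarith
    · rw [g3, hvq']; linarith
  · rw [abs_of_nonneg (by linarith)] at g2 g3
    refine h.poles.up (F v t) v.1 v'.1 ?_ ?_ ?_ (by rw [hv, hv'])
    · intro hh
      rw [hh] at g1
      have : 0 < (1 - t) * dist p q := mul_pos (by linarith [ht.2]) hd
      linarith
    · rw [g2, hv]; linarith
    · rw [g3, hv']; linarith

/-- continuous families on the suspension of the middle set descend to the space -/
theorem Fam.descend (h : Fam p q F) (K : Mid p q → ℝ → ℝ → X)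
    (hK : Continuous fun z : Mid p q × ℝ × ℝ => K z.1 z.2.1 z.2.2)
    (h0 : ∀ v v' s, s ∈ Icc (0 : ℝ) 1 → K v 0 s = K v' 0 s)
    (h1 : ∀ v v' s, s ∈ Icc (0 : ℝ) 1 → K v 1 s = K v' 1 s)
    (V : X → Mid p q) (hV : ∀ x, F (V x) (dist p x / dist p q) = x) :
    Continuous fun z : X × unitInterval => K (V z.1) (dist p z.1 / dist p q) z.2 := by
  have hd : 0 < dist p q := dist_pos.2 h.poles.ne
  have hT : ∀ x, dist p x / dist p q ∈ Icc (0 : ℝ) 1 := by
    intro x
    have h2 := h.poles.sum x
    have h3 : 0 ≤ dist x q := dist_nonneg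
    exact ⟨div_nonneg dist_nonneg hd.le, (div_le_one hd).2 (by linarith)⟩
  -- well defined
  have hwd : ∀ (v : Mid p q) (t : ℝ), t ∈ Icc (0 : ℝ) 1 → ∀ s ∈ Icc (0 : ℝ) 1,
      K (V (F v t)) (dist p (F v t) / dist p q) s = K v t s := by
    intro v t ht s hs
    have e1 : dist p (F v t) / dist p q = t := by
      rw [(h.rel v t ht).1, mul_div_cancel_right₀ _ hd.ne']
    rw [e1]
    rcases eq_or_lt_of_le ht.1 with h2 | h2
    · rw [← h2]; exact h0 _ _ s hs
    · rcases eq_or_lt_of_le ht.2 with h3 | h3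
      · rw [h3]; exact h1 _ _ s hs
      · have e2 := hV (F v t)
        rw [e1] at e2
        rw [h.inj ⟨h2, h3⟩ e2]
  have hcF : Continuous fun z : Mid p q × unitInterval × unitInterval => F z.1 (z.2.1 : ℝ) := by
    have e := h.cont.comp (continuous_fst.prodMk (continuous_subtype_val.comp
      (continuous_fst.comp continuous_snd)) :
      Continuous fun z : Mid p q × unitInterval × unitInterval => (z.1, (z.2.1 : ℝ)))
    refine e.congr fun z => ?_
    change F z.1 (ci z.2.1) = F z.1 z.2.1
    rw [ci_of z.2.1.2]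
  have hcK : Continuous fun z : Mid p q × unitInterval × unitInterval =>
      K z.1 (z.2.1 : ℝ) (z.2.2 : ℝ) :=
    hK.comp (continuous_fst.prodMk ((continuous_subtype_val.comp
      (continuous_fst.comp continuous_snd)).prodMk (continuous_subtype_val.comp
      (continuous_snd.comp continuous_snd))))
  refine cont_of_graph _ (range fun z : Mid p q × unitInterval × unitInterval =>
    ((F z.1 (z.2.1 : ℝ), z.2.2), K z.1 (z.2.1 : ℝ) (z.2.2 : ℝ))) ?_ ?_
  · exact (isCompact_range ((hcF.prodMk (continuous_snd.comp continuous_snd)).prodMk hcK)).isClosed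
  · rintro ⟨x, s⟩ y
    constructor
    · rintro ⟨⟨v, t, s'⟩, he⟩
      simp only [Prod.mk.injEq] at he
      obtain ⟨⟨e1, e2⟩, e3⟩ := he
      subst e1 e2 e3
      exact (hwd v t t.2 s' s'.2).symm
    · intro hy
      refine ⟨⟨V x, ⟨dist p x / dist p q, hT x⟩, s⟩, ?_⟩
      simp only [Prod.mk.injEq, and_true]
      exact ⟨hV x, hy.symm⟩

end

end Pool.Agent.Run7.h247.SG
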