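import Pool.Agent.Y489.GE.Stm

/-!
# Curves invariant under an isometry (for MP_3eff7f_gt)
-/

set_option autoImplicit false

open Set

namespace Pool.Agent.Run7.h247.SG

open Pool.Agent.Y489.GE

/-- A curve on `[0, T]` from `x` to `g x` is continued to a curve on the line with
`f (t + T) = g (f t)`. -/
theorem exists_ext (X : Type) [MetricSpace X] (g : X ≃ᵢ X) (T : ℝ) (hT : 0 < T) (c : ℝ → X)
    (hc : c T = g (c 0)) :
    ∃ f : ℝ → X, (∀ t, f (t + T) = g (f t)) ∧ ∀ t ∈ Icc (0 : ℝ) T, f t = c t := by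
  refine ⟨fun t => (g ^ ⌊t / T⌋) (c (T * Int.fract (t / T))), ?_, ?_⟩
  · intro t
    have h1 : (t + T) / T = t / T + 1 := by field_simp
    simp only [h1, Int.floor_add_one, Int.fract_add_one]
    rw [add_comm ⌊t / T⌋ 1, zpow_add, zpow_one]
    rfl
  · intro t ht
    rcases eq_or_lt_of_le ht.2 with h | h
    · subst h
      have h1 : t / t = 1 := div_self hT.ne'
      simp only [h1, Int.floor_one, Int.fract_one, mul_zero, zpow_one]
      exact hc.symm
    · have h0 : 0 ≤ t / T := div_nonneg ht.1 hT.le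
      have h1 : t / T < 1 := (div_lt_one hT).2 h
      have h2 : ⌊t / T⌋ = 0 := Int.floor_eq_zero_iff.2 ⟨h0, h1⟩
      have h3 : Int.fract (t / T) = t / T := Int.fract_eq_self.2 ⟨h0, h1⟩
      simp only [h2, h3, zpow_zero]
      rw [mul_div_cancel₀ _ hT.ne']
      rfl

theorem ext_nat {X : Type} [MetricSpace X] {g : X ≃ᵢ X} {T : ℝ} {f : ℝ → X}
    (hf : ∀ t, f (t + T) = g (f t)) (n : ℕ) (t : ℝ) : f (t + n * T) = (g ^ n) (f t) := by
  induction n with
  | zero => simp
  | succ n ih =>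
    have h : t + ((n + 1 : ℕ) : ℝ) * T = t + n * T + T := by push_cast; ring
    rw [h, hf, ih, pow_succ']
    rfl

/-- minimality on short intervals starting in `[0, T]` gives minimality on all short intervals -/
theorem locmin {X : Type} [MetricSpace X] {g : X ≃ᵢ X} {T : ℝ} (hT : 0 < T) {f : ℝ → X}
    (hf : ∀ t, f (t + T) = g (f t)) {ε : ℝ}
    (h : ∀ s ∈ Ico (0 : ℝ) T, ∀ t, s ≤ t → t ≤ s + ε → dist (f s) (f t) = t - s) :
    ∀ s t : ℝ, |s - t| ≤ ε → dist (f s) (f t) = |s - t| := by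
  -- translation by multiples of `T` preserves distances
  have htr : ∀ (n : ℕ) (s t : ℝ), dist (f (s + n * T)) (f (t + n * T)) = dist (f s) (f t) := by
    intro n s t
    rw [ext_nat hf, ext_nat hf]
    exact (g ^ n).dist_eq _ _
  have key : ∀ s t : ℝ, s ≤ t → t ≤ s + ε → dist (f s) (f t) = t - s := by
    intro s t hst hte
    set n : ℤ := ⌊s / T⌋ with hn
    set s0 : ℝ := s - n * T with hs0
    have h1 : 0 ≤ s0 := by
      have h2 : (n : ℝ) ≤ s / T := Int.floor_le _
      have h3 : (n : ℝ) * T ≤ s := (le_div_iff₀ hT).1 h2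
      rw [hs0]; linarith
    have h2 : s0 < T := by
      have h3 : s / T < n + 1 := Int.lt_floor_add_one _
      have h4 : s < (n + 1) * T := (div_lt_iff₀ hT).1 h3
      rw [hs0]; nlinarith
    have h3 := h s0 ⟨h1, h2⟩ (t - n * T) (by rw [hs0]; linarith) (by rw [hs0]; linarith)
    have h4 : dist (f s) (f t) = dist (f s0) (f (t - n * T)) := by
      rcases le_total 0 n with hn0 | hn0
      · obtain ⟨m, hm⟩ := Int.eq_ofNat_of_zero_le hn0
        have h5 := htr m s0 (t - n * T)
        have h6 : (n : ℝ) = (m : ℝ) := by rw [hm]; simp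
        rw [hs0, h6] at h5
        rw [hs0, h6]
        rw [← h5]
        congr 1 <;> ring_nf
      · obtain ⟨m, hm⟩ := Int.eq_ofNat_of_zero_le (neg_nonneg.2 hn0)
        have h5 := htr m s t
        have h6 : (n : ℝ) = -(m : ℝ) := by
          have : n = -(m : ℤ) := by linarith
          rw [this]; simp
        rw [← h5, hs0, h6]
        congr 1 <;> ring_nf
    rw [h4, h3, hs0]; ring
  intro s t hst
  rcases le_total s t with hle | hle
  · rw [abs_sub_comm, abs_of_nonneg (sub_nonneg.2 hle)] at hst ⊢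
    exact key s t hle (by linarith)
  · rw [abs_of_nonneg (sub_nonneg.2 hle)] at hst ⊢
    rw [dist_comm]
    exact key t s hle (by linarith)

/-- an invariant curve of an isometry of finite order is a closed geodesic -/
theorem closed_of {X : Type} [MetricSpace X] {g : X ≃ᵢ X} {T : ℝ} (hT : 0 < T) {f : ℝ → X}
    (hf : ∀ t, f (t + T) = g (f t)) {ε : ℝ} (hε : 0 < ε)
    (h : ∀ s ∈ Ico (0 : ℝ) T, ∀ t, s ≤ t → t ≤ s + ε → dist (f s) (f t) = t - s)
    {k : ℕ} (hk : 1 ≤ k) (hg : g ^ k = 1) {L : ℝ} (hL : k * T ≤ L) : ClosedGeod X L := by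
  have hk0 : (0 : ℝ) < k := by exact_mod_cast hk
  refine ⟨f, k * T, by positivity, hL, ?_, ε, hε, locmin hT hf h⟩
  intro t
  rw [ext_nat hf, hg]
  rfl

end Pool.Agent.Run7.h247.SG
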