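import Pool.Agent.Run7.h247.SG.Pair

/-!
# Finite groups (for MP_3eff7f_gt)
-/

set_option autoImplicit false

open Set

namespace Pool.Agent.Run7.h247.SG

open Pool.Agent.Y489.GE

theorem mono {X : Type} [MetricSpace X] {L L' : ℝ} (h : ClosedGeod X L) (hL : L ≤ L') :
    ClosedGeod X L' := by
  obtain ⟨γ, ℓ, h1, h2, h3⟩ := h
  exact ⟨γ, ℓ, h1, h2.trans hL, h3⟩

theorem dist_le_diam {X : Type} [MetricSpace X] [CompactSpace X] (x y : X) :
    dist x y ≤ Metric.diam (univ : Set X) :=
  Metric.dist_le_diam_of_mem isCompact_univ.isBounded (mem_univ x) (mem_univ y)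

/-- isometries of finite order without fixed points -/
theorem fpf_closed {X : Type} [MetricSpace X] [CompactSpace X] (hX : GeodSpace X)
    (g : X ≃ᵢ X) (hfix : ∀ x, g x ≠ x) (k : ℕ) (hk : 1 ≤ k) (hg : g ^ k = 1) (x : X) :
    ClosedGeod X (k * dist x (g x)) := by
  have : Nonempty X := ⟨x⟩
  obtain ⟨δ, x0, f, hδ, hmin, -, -, hf, hloc⟩ := fpf hX g hfix
  refine closed_of hδ hf hδ hloc hk hg ?_
  exact mul_le_mul_of_nonneg_left (hmin x) (by positivity)

/-- two involutions without common fixed point -/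
theorem pair_free {X : Type} [MetricSpace X] [CompactSpace X] [Nonempty X] {r : ℝ} (hr : 0 < r)
    (hX : GeodSpace X) (hU : UniqGeod X r) (σ τ : X ≃ᵢ X) (hσ : ∀ x, σ (σ x) = x)
    (hτ : ∀ x, τ (τ x) = x) (hno : ¬ ∃ x, σ x = x ∧ τ x = x) (m : ℕ) (hm : 1 ≤ m)
    (hmm : (τ * σ) ^ m = 1) : ClosedGeod X (2 * m * Metric.diam (univ : Set X)) := by
  have hm1 : (1 : ℝ) ≤ m := by exact_mod_cast hm
  have hD : 0 ≤ Metric.diam (univ : Set X) := Metric.diam_nonneg
  have hsq : ∀ ν : X ≃ᵢ X, (∀ x, ν (ν x) = x) → ν ^ 2 = 1 := by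
    intro ν hν
    ext x
    rw [pow_two]
    exact hν x
  have hone : ∀ ν : X ≃ᵢ X, (∀ x, ν (ν x) = x) → (∀ x, ν x ≠ x) →
      ClosedGeod X (2 * m * Metric.diam (univ : Set X)) := by
    intro ν hν hfix
    obtain ⟨x⟩ := (inferInstance : Nonempty X)
    refine mono (fpf_closed hX ν hfix 2 (by norm_num) (hsq ν hν) x) ?_
    have h1 := dist_le_diam x (ν x)
    have h2 : (2 : ℝ) ≤ 2 * m := by linarith
    calc ((2 : ℕ) : ℝ) * dist x (ν x) = 2 * dist x (ν x) := by norm_num
      _ ≤ (2 * m) * Metric.diam (univ : Set X) :=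
        mul_le_mul h2 h1 dist_nonneg (by linarith)
  by_cases h1 : ∃ a, σ a = a
  · by_cases h2 : ∃ b, τ b = b
    · obtain ⟨a, ha⟩ := h1
      obtain ⟨b, hb⟩ := h2
      refine mono (pair hr hX hU σ τ hσ hτ {x | σ x = x} {x | τ x = x} (fun x hx => hx)
        (fun x hx => hx) (isClosed_eq σ.continuous continuous_id)
        (isClosed_eq τ.continuous continuous_id) (by simp) (by simp) ?_ m hm hmm a b ha hb) ?_
      · rw [Set.disjoint_left]
        intro x hx hx'
        exact hno ⟨x, hx, hx'⟩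
      · exact mul_le_mul_of_nonneg_left (dist_le_diam a b) (by positivity)
    · exact hone τ hτ (fun x hx => h2 ⟨x, hx⟩)
  · exact hone σ hσ (fun x hx => h1 ⟨x, hx⟩)

/-- an involution with disconnected fixed point set -/
theorem disconnected {X : Type} [MetricSpace X] [CompactSpace X] {r : ℝ} (hr : 0 < r)
    (hX : GeodSpace X) (hU : UniqGeod X r) (σ : X ≃ᵢ X) (hσ : ∀ x, σ (σ x) = x)
    (hF : ¬ IsPreconnected {x | σ x = x}) : ClosedGeod X (2 * Metric.diam (univ : Set X)) := by
  have hFc : IsClosed {x | σ x = x} := isClosed_eq σ.continuous continuous_id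
  rw [isPreconnected_iff_subset_of_fully_disjoint_closed hFc] at hF
  push Not at hF
  obtain ⟨u, v, hu, hv, huv, hdis, hnu, hnv⟩ := hF
  obtain ⟨b, hb, hbu⟩ := Set.not_subset.1 hnu
  obtain ⟨a, ha, hav⟩ := Set.not_subset.1 hnv
  have hau : a ∈ u := (huv ha).resolve_right hav
  have hbv : b ∈ v := (huv hb).resolve_left hbu
  set F : Set X := {x | σ x = x} with hFdef
  have hd1 : F \ (F ∩ u) = F ∩ v := by
    ext x
    constructor
    · rintro ⟨h1, h2⟩
      exact ⟨h1, (huv h1).resolve_left (fun h => h2 ⟨h1, h⟩)⟩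
    · rintro ⟨h1, h2⟩
      exact ⟨h1, fun h => Set.disjoint_left.1 hdis h.2 h2⟩
  have hd2 : F \ (F ∩ v) = F ∩ u := by
    ext x
    constructor
    · rintro ⟨h1, h2⟩
      exact ⟨h1, (huv h1).resolve_right (fun h => h2 ⟨h1, h⟩)⟩
    · rintro ⟨h1, h2⟩
      exact ⟨h1, fun h => Set.disjoint_left.1 hdis h2 h.2⟩
  have hsq : (σ * σ) ^ 1 = (1 : X ≃ᵢ X) := by
    ext x
    rw [pow_one]
    exact hσ x
  refine mono (pair hr hX hU σ σ hσ hσ (F ∩ u) (F ∩ v) (fun x hx => hx.1) (fun x hx => hx.1)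
    (hFc.inter hu) (hFc.inter hv) (by rw [← hFdef, hd1]; exact hFc.inter hv)
    (by rw [← hFdef, hd2]; exact hFc.inter hu)
    (Set.disjoint_left.2 fun x h1 h2 => Set.disjoint_left.1 hdis h1.2 h2.2) 1 le_rfl hsq a b
    ⟨ha, hau⟩ ⟨hb, hbv⟩) ?_
  have h1 := dist_le_diam a b
  push_cast
  linarith

/-- the isometry given by an element of a group -/
theorem pow_smul {X G : Type} [MetricSpace X] [Group G] [MulAction G X] [IsIsometricSMul G X]
    (g : G) (k : ℕ) (x : X) : ((IsometryEquiv.constSMul g : X ≃ᵢ X) ^ k) x = g ^ k • x := by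
  induction k with
  | zero => simp
  | succ k ih =>
    rw [pow_succ', pow_succ', mul_smul, ← ih]
    rfl

theorem cyclic {X G : Type} [MetricSpace X] [CompactSpace X] [Nonempty X] (hX : GeodSpace X)
    [Group G] [Finite G] [MulAction G X] [IsIsometricSMul G X] (hG : IsCyclic G)
    (hno : ¬ ∃ x : X, ∀ g : G, g • x = x) :
    ClosedGeod X (Nat.card G * Metric.diam (univ : Set X)) := by
  obtain ⟨g, hg⟩ := hG.exists_generator
  obtain ⟨x⟩ := (inferInstance : Nonempty X)
  have hk : 1 ≤ Nat.card G := Nat.card_pos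
  refine mono (fpf_closed hX (IsometryEquiv.constSMul g) ?_ (Nat.card G) hk ?_ x) ?_
  · intro y hy
    apply hno
    refine ⟨y, fun h => ?_⟩
    have h1 : g ∈ MulAction.stabilizer G y := hy
    have h2 : Subgroup.zpowers g ≤ MulAction.stabilizer G y := Subgroup.zpowers_le.2 h1
    exact h2 (hg h)
  · ext y
    rw [pow_smul, pow_card_eq_one']
    simp
  · exact mul_le_mul_of_nonneg_left (dist_le_diam _ _) (by positivity)

theorem dihedral {X G : Type} [MetricSpace X] [CompactSpace X] [Nonempty X] {r : ℝ} (hr : 0 < r)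
    (hX : GeodSpace X) (hU : UniqGeod X r)
    [Group G] [MulAction G X] [IsIsometricSMul G X] (n : ℕ) (hn : 1 ≤ n)
    (e : G ≃* DihedralGroup n) (hno : ¬ ∃ x : X, ∀ g : G, g • x = x) :
    ClosedGeod X (Nat.card G * Metric.diam (univ : Set X)) := by
  have : NeZero n := ⟨by omega⟩
  have hcard : (Nat.card G : ℝ) = 2 * n := by
    rw [Nat.card_congr e.toEquiv, DihedralGroup.nat_card]
    push_cast; ring
  rw [hcard]
  set s : G := e.symm (DihedralGroup.sr 0) with hs
  set t : G := e.symm (DihedralGroup.sr 1) with ht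
  have hss : s * s = 1 := by
    rw [hs, ← map_mul, DihedralGroup.sr_mul_self, map_one]
  have htt : t * t = 1 := by
    rw [ht, ← map_mul, DihedralGroup.sr_mul_self, map_one]
  have hst : s * t = e.symm (DihedralGroup.r 1) := by
    rw [hs, ht, ← map_mul, DihedralGroup.sr_mul_sr, sub_zero]
  have hpow : (s * t) ^ n = 1 := by
    rw [hst, ← map_pow, DihedralGroup.r_one_pow_n, map_one]
  refine pair_free hr hX hU (IsometryEquiv.constSMul t) (IsometryEquiv.constSMul s) ?_ ?_ ?_ n hn ?_
  · intro x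
    change t • t • x = x
    rw [smul_smul, htt, one_smul]
  · intro x
    change s • s • x = x
    rw [smul_smul, hss, one_smul]
  · rintro ⟨x, hx1, hx2⟩
    apply hno
    refine ⟨x, fun g => ?_⟩
    have h1 : t • x = x := hx1
    have h2 : s • x = x := hx2
    have h3 : e.symm (DihedralGroup.r 1) • x = x := by rw [← hst, mul_smul, h1, h2]
    have h4 : ∀ i : ZMod n, e.symm (DihedralGroup.r i) • x = x := by
      intro i
      have h5 : DihedralGroup.r i = (DihedralGroup.r (1 : ZMod n)) ^ i.val := by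
        rw [DihedralGroup.r_one_pow, ZMod.natCast_zmod_val]
      have h6 : e.symm (DihedralGroup.r 1) ∈ MulAction.stabilizer G x := h3
      have h7 := pow_mem h6 i.val
      rw [← map_pow, ← h5] at h7
      exact h7
    have h8 : ∀ y : DihedralGroup n, e.symm y • x = x := by
      intro y
      cases y with
      | r i => exact h4 i
      | sr i =>
        have h9 : DihedralGroup.sr i = DihedralGroup.sr 0 * DihedralGroup.r i := by
          rw [DihedralGroup.sr_mul_r, zero_add]
        rw [h9, map_mul, mul_smul, h4 i]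
        exact h2
    have h10 := h8 (e g)
    rwa [e.symm_apply_apply] at h10
  · ext x
    have h1 : (IsometryEquiv.constSMul s * IsometryEquiv.constSMul t : X ≃ᵢ X) =
        IsometryEquiv.constSMul (s * t) := by
      ext y
      change s • t • y = (s * t) • y
      rw [mul_smul]
    rw [h1, pow_smul, hpow, one_smul]
    rfl

end Pool.Agent.Run7.h247.SG
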