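import Pool.Agent.Run7.h247.SG.Ext

/-!
# Geodesics of symmetries without common fixed points (for MP_3eff7f_gt)
-/

set_option autoImplicit false

open Set

namespace Pool.Agent.Run7.h247.SG

open Pool.Agent.Y489.GE

/-- minimal geodesics parametrised by arc length -/
theorem arc {X : Type} [MetricSpace X] (hX : GeodSpace X) (x y : X) (hxy : 0 < dist x y) :
    ∃ c : ℝ → X, c 0 = x ∧ c (dist x y) = y ∧
      ∀ s ∈ Icc (0 : ℝ) (dist x y), ∀ t ∈ Icc (0 : ℝ) (dist x y), dist (c s) (c t) = |s - t| := by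
  obtain ⟨c, h0, h1, h⟩ := hX x y
  refine ⟨fun t => c (t / dist x y), ?_, ?_, ?_⟩
  · simp [h0]
  · simp only []
    rw [div_self hxy.ne', h1]
  · intro s hs t ht
    have hs' : s / dist x y ∈ Icc (0 : ℝ) 1 :=
      ⟨div_nonneg hs.1 hxy.le, (div_le_one hxy).2 hs.2⟩
    have ht' : t / dist x y ∈ Icc (0 : ℝ) 1 :=
      ⟨div_nonneg ht.1 hxy.le, (div_le_one hxy).2 ht.2⟩
    simp only []
    rw [h _ hs' _ ht', ← sub_div, abs_div, abs_of_pos hxy, div_mul_cancel₀ _ hxy.ne']

/-- An isometry without fixed points: invariant geodesic, minimal on all intervals of length `δ`. -/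
theorem fpf {X : Type} [MetricSpace X] [CompactSpace X] [Nonempty X] (hX : GeodSpace X)
    (g : X ≃ᵢ X) (hfix : ∀ x, g x ≠ x) :
    ∃ (δ : ℝ) (x : X) (f : ℝ → X), 0 < δ ∧ (∀ y, δ ≤ dist y (g y)) ∧ δ = dist x (g x) ∧
      f 0 = x ∧ (∀ t, f (t + δ) = g (f t)) ∧
      ∀ s ∈ Ico (0 : ℝ) δ, ∀ t, s ≤ t → t ≤ s + δ → dist (f s) (f t) = t - s := by
  have hcont : Continuous (fun x : X => dist x (g x)) := continuous_id.dist g.continuous
  obtain ⟨x, -, hx⟩ := isCompact_univ.exists_isMinOn (univ_nonempty (α := X)) hcont.continuousOn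
  have hmin : ∀ y, dist x (g x) ≤ dist y (g y) := fun y => hx (mem_univ y)
  have hpos : 0 < dist x (g x) := dist_pos.2 (fun h => hfix x h.symm)
  obtain ⟨c, h0, h1, hc⟩ := arc hX x (g x) hpos
  set δ := dist x (g x) with hδ
  obtain ⟨f, hf, hfc⟩ := exists_ext X g δ hpos c (by rw [h0, h1])
  refine ⟨δ, x, f, hpos, hmin, rfl, ?_, hf, ?_⟩
  · rw [hfc 0 ⟨le_rfl, hpos.le⟩, h0]
  · intro s hs t hst hts
    have hsI : s ∈ Icc (0 : ℝ) δ := ⟨hs.1, hs.2.le⟩
    rcases le_total t δ with htδ | htδ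
    · have htI : t ∈ Icc (0 : ℝ) δ := ⟨hs.1.trans hst, htδ⟩
      rw [hfc s hsI, hfc t htI, hc s hsI t htI, abs_sub_comm, abs_of_nonneg (by linarith)]
    · set b := t - δ with hb
      have hb0 : 0 ≤ b := by rw [hb]; linarith
      have hbs : b ≤ s := by rw [hb]; linarith
      have hbI : b ∈ Icc (0 : ℝ) δ := ⟨hb0, hbs.trans hs.2.le⟩
      have hft : f t = g (c b) := by
        have h2 := hf b
        rw [hfc b hbI] at h2
        rw [← h2, hb]; congr 1; ring
      have hδI : δ ∈ Icc (0 : ℝ) δ := ⟨hpos.le, le_rfl⟩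
      have h0I : (0 : ℝ) ∈ Icc (0 : ℝ) δ := ⟨le_rfl, hpos.le⟩
      have hd1 : dist (c s) (c δ) = δ - s := by
        rw [hc s hsI δ hδI, abs_sub_comm, abs_of_nonneg (by linarith [hs.2])]
      have hd2 : dist (g (c 0)) (g (c b)) = b := by
        rw [g.dist_eq, hc 0 h0I b hbI, zero_sub, abs_neg, abs_of_nonneg hb0]
      have hjoin : c δ = g (c 0) := by rw [h0, h1]
      have hup : dist (c s) (g (c b)) ≤ δ - s + b := by
        calc dist (c s) (g (c b)) ≤ dist (c s) (c δ) + dist (c δ) (g (c b)) := dist_triangle _ _ _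
          _ = δ - s + b := by rw [hd1, hjoin, hd2]
      have hd3 : dist (g (c b)) (g (c s)) = s - b := by
        rw [g.dist_eq, hc b hbI s hsI, abs_sub_comm, abs_of_nonneg (by linarith)]
      have hlow : δ ≤ dist (c s) (g (c b)) + (s - b) := by
        calc δ ≤ dist (c s) (g (c s)) := hmin _
          _ ≤ dist (c s) (g (c b)) + dist (g (c b)) (g (c s)) := dist_triangle _ _ _
          _ = dist (c s) (g (c b)) + (s - b) := by rw [hd3]
      rw [hfc s hsI, hft]
      apply le_antisymm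
      · calc dist (c s) (g (c b)) ≤ δ - s + b := hup
          _ = t - s := by rw [hb]; ring
      · have : t - s = δ - (s - b) := by rw [hb]; ring
        rw [this]; linarith

/-- the corner at a fixed point of an involution -/
theorem corner {X : Type} [MetricSpace X] {r : ℝ} (hX : GeodSpace X) (hU : UniqGeod X r)
    (σ : X ≃ᵢ X) (hσ : ∀ x, σ (σ x) = x) (A : Set X) (p : X) (hpA : p ∈ A)
    (hA : ∀ x ∈ A, σ x = x) {ρ : ℝ} (hρ : ∀ x, σ x = x → dist x p < ρ → x ∈ A)
    (c : ℝ → X) {ε : ℝ} (hcp : ∀ u ∈ Icc (0 : ℝ) ε, dist (c u) p = u)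
    (hcc : ∀ u ∈ Icc (0 : ℝ) ε, ∀ v ∈ Icc (0 : ℝ) ε, dist (c u) (c v) = |u - v|)
    (hcA : ∀ u ∈ Icc (0 : ℝ) ε, ∀ a ∈ A, u ≤ dist a (c u))
    (h2r : 2 * ε < r) (h2ρ : 2 * ε < ρ) :
    ∀ u ∈ Icc (0 : ℝ) ε, ∀ v ∈ Icc (0 : ℝ) ε, dist (c u) (σ (c v)) = u + v := by
  have hσp : σ p = p := hA p hpA
  have hσc : ∀ v ∈ Icc (0 : ℝ) ε, dist p (σ (c v)) = v := by
    intro v hv
    have h1 : dist (σ p) (σ (c v)) = dist p (c v) := σ.dist_eq _ _
    rw [hσp] at h1
    rw [h1, dist_comm, hcp v hv]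
  -- the symmetric case
  have hsym : ∀ u ∈ Icc (0 : ℝ) ε, dist (c u) (σ (c u)) = 2 * u := by
    intro u hu
    have hup : dist (c u) (σ (c u)) ≤ 2 * u := by
      calc dist (c u) (σ (c u)) ≤ dist (c u) p + dist p (σ (c u)) := dist_triangle _ _ _
        _ = 2 * u := by rw [hcp u hu, hσc u hu]; ring
    obtain ⟨e, he0, he1, he⟩ := hX (c u) (σ (c u))
    set D := dist (c u) (σ (c u)) with hD
    have hhalf : (1 / 2 : ℝ) ∈ Icc (0 : ℝ) 1 := by constructor <;> norm_num
    have h0I : (0 : ℝ) ∈ Icc (0 : ℝ) 1 := by constructor <;> norm_num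
    have h1I : (1 : ℝ) ∈ Icc (0 : ℝ) 1 := by constructor <;> norm_num
    set z := e (1 / 2) with hz
    have hz1 : dist (c u) z = D / 2 := by
      rw [← he0, hz, he 0 h0I _ hhalf]
      rw [show |(0 : ℝ) - 1 / 2| = 1 / 2 by rw [abs_of_nonpos] <;> norm_num]
      ring
    have hz2 : dist z (σ (c u)) = D / 2 := by
      rw [hz]
      conv_lhs => rw [← he1]
      rw [he _ hhalf 1 h1I]
      rw [show |(1 / 2 : ℝ) - 1| = 1 / 2 by rw [abs_of_nonpos] <;> norm_num]
      ring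
    have hz3 : dist (c u) (σ z) = D / 2 := by
      have h1 : dist (σ (σ (c u))) (σ z) = dist (σ (c u)) z := σ.dist_eq _ _
      rw [hσ] at h1
      rw [h1, dist_comm, hz2]
    have hz4 : dist (σ z) (σ (c u)) = D / 2 := by
      rw [σ.dist_eq, dist_comm, hz1]
    have hzfix : z = σ z := by
      refine hU (c u) (σ (c u)) z (σ z) ?_ ?_ ?_ ?_
      · calc dist (c u) (σ (c u)) ≤ 2 * u := hup
          _ ≤ 2 * ε := by linarith [hu.2]
          _ < r := h2r
      · rw [hz1, hz2, ← hD]; ring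
      · rw [hz3, hz4, ← hD]; ring
      · rw [hz1, hz3]
    have hzA : z ∈ A := by
      refine hρ z hzfix.symm ?_
      calc dist z p ≤ dist z (c u) + dist (c u) p := dist_triangle _ _ _
        _ = D / 2 + u := by rw [dist_comm z, hz1, hcp u hu]
        _ ≤ 2 * ε := by linarith [hu.2]
        _ < ρ := h2ρ
    have h5 := hcA u hu z hzA
    rw [dist_comm, hz1] at h5
    linarith
  intro u hu v hv
  apply le_antisymm
  · calc dist (c u) (σ (c v)) ≤ dist (c u) p + dist p (σ (c v)) := dist_triangle _ _ _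
      _ = u + v := by rw [hcp u hu, hσc v hv]
  · rcases le_total v u with h | h
    · have h1 : dist (c u) (σ (c u)) ≤ dist (c u) (σ (c v)) + dist (σ (c v)) (σ (c u)) :=
        dist_triangle _ _ _
      rw [hsym u hu, σ.dist_eq, hcc v hv u hu, abs_sub_comm, abs_of_nonneg (by linarith)] at h1
      linarith
    · have h1 : dist (c v) (σ (c v)) ≤ dist (c v) (c u) + dist (c u) (σ (c v)) :=
        dist_triangle _ _ _
      rw [hsym v hv, hcc v hv u hu, abs_of_nonneg (by linarith)] at h1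
      linarith

end Pool.Agent.Run7.h247.SG
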