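import Pool.Agent.Run7.h247.SG.Geod

/-!
# Two isometric involutions (for MP_3eff7f_gt)
-/

set_option autoImplicit false

open Set

namespace Pool.Agent.Run7.h247.SG

open Pool.Agent.Y489.GE

theorem exists_rad {X : Type} [MetricSpace X] (σ : X → X) (A : Set X) (p : X) (hpA : p ∈ A)
    (hcl : IsClosed ({x | σ x = x} \ A)) :
    ∃ ρ : ℝ, 0 < ρ ∧ ∀ x, σ x = x → dist x p < ρ → x ∈ A := by
  have hop : IsOpen ({x | σ x = x} \ A)ᶜ := hcl.isOpen_compl
  obtain ⟨ρ, hρ, h⟩ := Metric.isOpen_iff.1 hop p (fun h => h.2 hpA)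
  refine ⟨ρ, hρ, fun x hx hxp => ?_⟩
  by_contra hxA
  exact h (Metric.mem_ball.2 hxp) ⟨hx, hxA⟩

/-- Two isometric involutions `σ`, `τ`, unions `A`, `B` of components of the fixed point sets
without common point, `(τ σ) ^ m = 1`: periodic geodesic of length `2 m dist(A, B)`. -/
theorem pair {X : Type} [MetricSpace X] [CompactSpace X] {r : ℝ} (hr : 0 < r)
    (hX : GeodSpace X) (hU : UniqGeod X r) (σ τ : X ≃ᵢ X) (hσ : ∀ x, σ (σ x) = x)
    (hτ : ∀ x, τ (τ x) = x) (A B : Set X) (hA : ∀ x ∈ A, σ x = x) (hB : ∀ x ∈ B, τ x = x)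
    (hAc : IsClosed A) (hBc : IsClosed B) (hA' : IsClosed ({x | σ x = x} \ A))
    (hB' : IsClosed ({x | τ x = x} \ B)) (hAB : Disjoint A B) (m : ℕ) (hm : 1 ≤ m)
    (hmm : (τ * σ) ^ m = 1) (a0 b0 : X) (ha0 : a0 ∈ A) (hb0 : b0 ∈ B) :
    ClosedGeod X (2 * m * dist a0 b0) := by
  have hK : IsCompact (A ×ˢ B) := hAc.isCompact.prod hBc.isCompact
  obtain ⟨⟨p, q⟩, ⟨hpA, hqB⟩, hmin'⟩ := hK.exists_isMinOn ⟨(a0, b0), ha0, hb0⟩
    (continuous_fst.dist continuous_snd : Continuous (fun z : X × X => dist z.1 z.2)).continuousOn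
  simp only at hpA hqB
  have hmin : ∀ a ∈ A, ∀ b ∈ B, dist p q ≤ dist a b := fun a ha b hb =>
    hmin' (⟨ha, hb⟩ : (a, b) ∈ A ×ˢ B)
  have hd : 0 < dist p q := dist_pos.2 (fun h => by
    rw [h] at hpA
    exact Set.disjoint_left.1 hAB hpA hqB)
  obtain ⟨c, h0, h1, hc⟩ := arc hX p q hd
  have hle0 := hmin a0 ha0 b0 hb0
  set d := dist p q with hddef
  obtain ⟨ρ1, hρ1, hρA⟩ := exists_rad (fun x => σ x) A p hpA hA'
  obtain ⟨ρ2, hρ2, hρB⟩ := exists_rad (fun x => τ x) B q hqB hB'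
  set ε := min d (min (r / 4) (min (ρ1 / 4) (ρ2 / 4))) with hε
  have hε0 : 0 < ε := by
    rw [hε]
    exact lt_min hd (lt_min (by linarith) (lt_min (by linarith) (by linarith)))
  have hεd : ε ≤ d := min_le_left _ _
  have hεr : ε ≤ r / 4 := (min_le_right _ _).trans (min_le_left _ _)
  have hε1 : ε ≤ ρ1 / 4 :=
    (min_le_right _ _).trans ((min_le_right _ _).trans (min_le_left _ _))
  have hε2 : ε ≤ ρ2 / 4 :=
    (min_le_right _ _).trans ((min_le_right _ _).trans (min_le_right _ _))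
  have h0I : (0 : ℝ) ∈ Icc (0 : ℝ) d := ⟨le_rfl, hd.le⟩
  have hdI : d ∈ Icc (0 : ℝ) d := ⟨hd.le, le_rfl⟩
  -- the corner at `p`
  have cp := corner hX hU σ hσ A p hpA hA hρA c (ε := ε)
    (by
      intro u hu
      have huI : u ∈ Icc (0 : ℝ) d := ⟨hu.1, hu.2.trans hεd⟩
      rw [← h0, hc u huI 0 h0I, sub_zero, abs_of_nonneg hu.1])
    (by
      intro u hu v hv
      exact hc u ⟨hu.1, hu.2.trans hεd⟩ v ⟨hv.1, hv.2.trans hεd⟩)
    (by
      intro u hu a ha
      have huI : u ∈ Icc (0 : ℝ) d := ⟨hu.1, hu.2.trans hεd⟩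
      have e1 := hmin a ha q hqB
      have e2 : dist (c u) q = d - u := by
        rw [← h1, hc u huI d hdI, abs_sub_comm, abs_of_nonneg (by linarith [huI.2])]
      have e3 := dist_triangle a (c u) q
      rw [e2] at e3
      linarith)
    (by linarith) (by linarith)
  -- the corner at `q`
  have cq := corner hX hU τ hτ B q hqB hB hρB (fun u => c (d - u)) (ε := ε)
    (by
      intro u hu
      have huI : d - u ∈ Icc (0 : ℝ) d := ⟨by linarith [hu.2], by linarith [hu.1]⟩
      rw [← h1, hc _ huI d hdI]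
      rw [show d - u - d = -u by ring, abs_neg, abs_of_nonneg hu.1])
    (by
      intro u hu v hv
      have huI : d - u ∈ Icc (0 : ℝ) d := ⟨by linarith [hu.2], by linarith [hu.1]⟩
      have hvI : d - v ∈ Icc (0 : ℝ) d := ⟨by linarith [hv.2], by linarith [hv.1]⟩
      rw [hc _ huI _ hvI]
      rw [show d - u - (d - v) = -(u - v) by ring, abs_neg])
    (by
      intro u hu b hb
      have huI : d - u ∈ Icc (0 : ℝ) d := ⟨by linarith [hu.2], by linarith [hu.1]⟩
      have e1 := hmin p hpA b hb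
      have e2 : dist p (c (d - u)) = d - u := by
        rw [← h0, hc 0 h0I _ huI, zero_sub, abs_neg, abs_of_nonneg huI.1]
      have e3 := dist_triangle p (c (d - u)) b
      rw [e2, dist_comm (c (d - u)) b] at e3
      linarith)
    (by linarith) (by linarith)
  -- the curve on `[0, 2 d]`
  set c2 : ℝ → X := fun t => if t ≤ d then c t else τ (c (2 * d - t)) with hc2
  have hT : 0 < 2 * d := by linarith
  have hj : c2 (2 * d) = (τ * σ) (c2 0) := by
    have e1 : ¬ 2 * d ≤ d := by linarith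
    simp only [hc2, if_neg e1, if_pos hd.le, sub_self, h0]
    have : (τ * σ) p = τ (σ p) := rfl
    rw [this, hA p hpA]
  obtain ⟨f, hf, hfc⟩ := exists_ext X (τ * σ) (2 * d) hT c2 hj
  have hfl : ∀ t, 0 ≤ t → t ≤ d → f t = c t := by
    intro t ht htd
    rw [hfc t ⟨ht, by linarith⟩]
    simp only [hc2, if_pos htd]
  have hfr : ∀ t, d ≤ t → t ≤ 2 * d → f t = τ (c (2 * d - t)) := by
    intro t ht htd
    rw [hfc t ⟨by linarith, htd⟩]
    rcases eq_or_lt_of_le ht with h | h
    · subst h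
      simp only [hc2, if_pos le_rfl]
      rw [show 2 * d - d = d by ring, h1, hB q hqB]
    · simp only [hc2, if_neg (not_le.2 h)]
  refine closed_of hT hf hε0 ?_ hm hmm (L := 2 * m * dist a0 b0) ?_
  · intro s hs t hst hts
    rcases lt_or_ge s d with hsd | hsd
    · rcases le_or_gt t d with htd | htd
      · rw [hfl s hs.1 hsd.le, hfl t (hs.1.trans hst) htd,
          hc s ⟨hs.1, hsd.le⟩ t ⟨hs.1.trans hst, htd⟩, abs_sub_comm,
          abs_of_nonneg (by linarith)]
      · rw [hfl s hs.1 hsd.le, hfr t htd.le (by linarith)]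
        have e1 := cq (d - s) ⟨by linarith, by linarith⟩ (t - d) ⟨by linarith, by linarith⟩
        rw [show d - (d - s) = s by ring, show d - (t - d) = 2 * d - t by ring] at e1
        rw [e1]; ring
    · rcases le_or_gt t (2 * d) with htd | htd
      · rw [hfr s hsd hs.2.le, hfr t (hsd.trans hst) htd, τ.dist_eq,
          hc _ ⟨by linarith, by linarith⟩ _ ⟨by linarith, by linarith⟩,
          show 2 * d - s - (2 * d - t) = t - s by ring, abs_of_nonneg (by linarith)]
      · have e1 : f t = τ (σ (c (t - 2 * d))) := by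
          have e2 := hf (t - 2 * d)
          rw [hfl (t - 2 * d) (by linarith) (by linarith [hs.2])] at e2
          have e3 : (τ * σ) (c (t - 2 * d)) = τ (σ (c (t - 2 * d))) := rfl
          rw [← e3, ← e2]; congr 1; ring
        rw [hfr s hsd hs.2.le, e1, τ.dist_eq,
          cp (2 * d - s) ⟨by linarith [hs.2], by linarith⟩ (t - 2 * d)
            ⟨by linarith, by linarith [hs.2]⟩]
        ring
  · have hm0 : (0 : ℝ) ≤ m := by positivity
    nlinarith

end Pool.Agent.Run7.h247.SG
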