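import Pool.Agent.Run7.h247.SG.Contr
import Pool.Agent.Y50.GE.Om
import Pool.Agent.Y590.GE.BK
import Pool.Agent.Y812.GE.EN
import Pool.Agent.Y165.GE.CG
import Pool.Agent.Y467.GE.MG

/-!
# Short closed geodesics on spaces with two poles (for MP_3eff7f_gt)
-/

set_option autoImplicit false

open Set Topology

namespace Pool.Agent.Run7.h247.SG

open Pool.Agent.Y489.GE Pool.Agent.Y50.GE

section

variable {X : Type} [MetricSpace X] [CompactSpace X] {p q : X} {F : Mid p q → ℝ → X}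

/-- the loop along `F v` and back along `F v₀` -/
noncomputable def lp (F : Mid p q → ℝ → X) (v₀ v : Mid p q) (τ : ℝ) : X :=
  if τ ≤ dist p q then F v (ci (τ / dist p q)) else F v₀ (ci ((2 * dist p q - τ) / dist p q))

theorem ci_lip (s t : ℝ) : |ci s - ci t| ≤ |s - t| := by
  unfold ci
  rw [max_comm 0, max_comm 0]
  refine (abs_max_sub_max_le_abs _ _ _).trans ?_
  rw [min_comm 1 s, min_comm 1 t]
  refine (abs_min_sub_min_le_max _ _ _ _).trans ?_
  rw [sub_self, abs_zero, max_eq_left (abs_nonneg _)]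

theorem ci_one_le {t : ℝ} (h : 1 ≤ t) : ci t = 1 := by
  unfold ci
  rw [min_eq_left h, max_eq_right zero_le_one]

theorem ci_le_zero {t : ℝ} (h : t ≤ 0) : ci t = 0 := by
  unfold ci
  rw [min_eq_right (h.trans zero_le_one), max_eq_left h]

theorem Fam.lip (h : Fam p q F) (v : Mid p q) (s t : ℝ) :
    dist (F v (ci (s / dist p q))) (F v (ci (t / dist p q))) ≤ |s - t| := by
  have hd : 0 < dist p q := dist_pos.2 h.poles.ne
  rw [h.len v _ (ci_mem _) _ (ci_mem _)]
  calc |ci (s / dist p q) - ci (t / dist p q)| * dist p q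
      ≤ |s / dist p q - t / dist p q| * dist p q :=
        mul_le_mul_of_nonneg_right (ci_lip _ _) hd.le
    _ = |s - t| := by rw [← sub_div, abs_div, abs_of_pos hd, div_mul_cancel₀ _ hd.ne']

theorem lp_left (h : Fam p q F) (v₀ v : Mid p q) {τ : ℝ} (hτ : τ ≤ dist p q) :
    lp F v₀ v τ = F v (ci (τ / dist p q)) := by
  unfold lp
  rw [if_pos hτ]

theorem lp_right (h : Fam p q F) (v₀ v : Mid p q) {τ : ℝ} (hτ : dist p q ≤ τ) :
    lp F v₀ v τ = F v₀ (ci ((2 * dist p q - τ) / dist p q)) := by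
  have hd : 0 < dist p q := dist_pos.2 h.poles.ne
  rcases eq_or_lt_of_le hτ with h1 | h1
  · rw [lp_left h v₀ v h1.ge, ← h1]
    rw [div_self hd.ne', ci_one_le le_rfl, h.one,
      show (2 * dist p q - dist p q) / dist p q = 1 by field_simp; ring, ci_one_le le_rfl, h.one]
  · unfold lp
    rw [if_neg (not_le.2 h1)]

theorem lp_lip (h : Fam p q F) (v₀ v : Mid p q) (s t : ℝ) :
    dist (lp F v₀ v s) (lp F v₀ v t) ≤ |s - t| := by
  have hd : 0 < dist p q := dist_pos.2 h.poles.ne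
  have key : ∀ s t : ℝ, s ≤ t → dist (lp F v₀ v s) (lp F v₀ v t) ≤ t - s := by
    intro s t hst
    rcases le_total t (dist p q) with h1 | h1
    · rw [lp_left h v₀ v (hst.trans h1), lp_left h v₀ v h1]
      refine (h.lip v s t).trans (le_of_eq ?_)
      rw [abs_sub_comm, abs_of_nonneg (by linarith)]
    · rcases le_total s (dist p q) with h2 | h2
      · have e1 : dist (lp F v₀ v s) (lp F v₀ v (dist p q)) ≤ dist p q - s := by
          rw [lp_left h v₀ v h2, lp_left h v₀ v le_rfl]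
          refine (h.lip v s _).trans (le_of_eq ?_)
          rw [abs_sub_comm, abs_of_nonneg (by linarith)]
        have e2 : dist (lp F v₀ v (dist p q)) (lp F v₀ v t) ≤ t - dist p q := by
          rw [lp_right h v₀ v le_rfl, lp_right h v₀ v h1]
          refine (h.lip v₀ _ _).trans (le_of_eq ?_)
          rw [abs_of_nonneg (by linarith)]; ring
        linarith [dist_triangle (lp F v₀ v s) (lp F v₀ v (dist p q)) (lp F v₀ v t)]
      · rw [lp_right h v₀ v h2, lp_right h v₀ v h1]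
        refine (h.lip v₀ _ _).trans (le_of_eq ?_)
        rw [abs_of_nonneg (by linarith)]; ring
  rcases le_total s t with h1 | h1
  · rw [abs_sub_comm, abs_of_nonneg (by linarith)]
    exact key s t h1
  · rw [dist_comm, abs_of_nonneg (by linarith)]
    exact key t s h1

theorem lp_om (h : Fam p q F) (v₀ v : Mid p q) : lp F v₀ v ∈ Om p (2 * dist p q) := by
  have hd : 0 < dist p q := dist_pos.2 h.poles.ne
  refine ⟨lp_lip h v₀ v, ?_, ?_⟩
  · intro t ht
    rw [lp_left h v₀ v (ht.trans hd.le), ci_le_zero (div_nonpos_of_nonpos_of_nonneg ht hd.le),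
      h.zero]
  · intro t ht
    rw [lp_right h v₀ v (by linarith),
      ci_le_zero (div_nonpos_of_nonpos_of_nonneg (by linarith) hd.le), h.zero]

/-- the loops depend continuously on the middle point -/
theorem lp_cont (h : Fam p q F) (v₀ : Mid p q) (τ : ℝ) : Continuous fun v => lp F v₀ v τ := by
  have hF : Continuous fun v : Mid p q => F v (ci (τ / dist p q)) :=
    h.cont.comp (continuous_id.prodMk continuous_const)
  rcases le_total τ (dist p q) with h1 | h1
  · exact hF.congr fun v => (lp_left h v₀ v h1).symm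
  · exact continuous_const.congr fun v => (lp_right h v₀ v h1).symm

/-- on each half the loop is a minimal geodesic -/
theorem lp_len (h : Fam p q F) (v₀ v : Mid p q) {a b s t : ℝ} (hab : a ≤ b)
    (hh : (0 ≤ a ∧ b ≤ dist p q) ∨ (dist p q ≤ a ∧ b ≤ 2 * dist p q)) (hs : s ∈ Icc a b)
    (ht : t ∈ Icc a b) : dist (lp F v₀ v s) (lp F v₀ v t) = |s - t| := by
  have hd : 0 < dist p q := dist_pos.2 h.poles.ne
  rcases hh with ⟨h0, h1⟩ | ⟨h0, h1⟩
  · have hsI : s / dist p q ∈ Icc (0 : ℝ) 1 := ⟨div_nonneg (h0.trans hs.1) hd.le,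
      (div_le_one hd).2 (hs.2.trans h1)⟩
    have htI : t / dist p q ∈ Icc (0 : ℝ) 1 := ⟨div_nonneg (h0.trans ht.1) hd.le,
      (div_le_one hd).2 (ht.2.trans h1)⟩
    rw [lp_left h v₀ v (hs.2.trans h1), lp_left h v₀ v (ht.2.trans h1), ci_of hsI, ci_of htI,
      h.len v _ hsI _ htI, ← sub_div, abs_div, abs_of_pos hd, div_mul_cancel₀ _ hd.ne']
  · have hsI : (2 * dist p q - s) / dist p q ∈ Icc (0 : ℝ) 1 :=
      ⟨div_nonneg (by linarith [hs.2]) hd.le, (div_le_one hd).2 (by linarith [hs.1])⟩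
    have htI : (2 * dist p q - t) / dist p q ∈ Icc (0 : ℝ) 1 :=
      ⟨div_nonneg (by linarith [ht.2]) hd.le, (div_le_one hd).2 (by linarith [ht.1])⟩
    rw [lp_right h v₀ v (h0.trans hs.1), lp_right h v₀ v (h0.trans ht.1), ci_of hsI, ci_of htI,
      h.len v₀ _ hsI _ htI, ← sub_div, abs_div, abs_of_pos hd, div_mul_cancel₀ _ hd.ne',
      show 2 * dist p q - s - (2 * dist p q - t) = -(s - t) by ring, abs_neg]

/-- the curve of the inscribed polygon of a loop is the loop -/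
theorem bar_lp (h : Fam p q F) (v₀ v : Mid p q) {r : ℝ} (hU : UniqGeod X r) {r' : ℝ}
    {m : X → X → ℝ → X} (hm : GMap X r' m) {K : ℕ} [NeZero (2 * K)] {δ : ℝ} (hδ : 0 < δ)
    (hK : K * δ = dist p q) (hδ1 : δ < r) (hδ2 : δ ≤ r') {u : ℝ}
    (hu : u ∈ Icc (0 : ℝ) ((2 * K : ℕ) : ℝ)) :
    bar m (2 * K) (samp (2 * K) δ (lp F v₀ v)) u = lp F v₀ v (u * δ) := by
  have hN : ((2 * K : ℕ) : ℝ) * δ = 2 * dist p q := by push_cast; linarith
  have hmem := samp_mem (p := p) hδ.le hN (lp_om h v₀ v)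
  -- the side which contains `u`
  obtain ⟨n, hn0, hnN, hun⟩ : ∃ n : ℤ, 0 ≤ n ∧ n + 1 ≤ 2 * K ∧ u ∈ Icc (n : ℝ) (n + 1) := by
    rcases eq_or_lt_of_le hu.2 with h1 | h1
    · have hK1 : 1 ≤ 2 * K := Nat.one_le_iff_ne_zero.2 (NeZero.ne _)
      refine ⟨2 * K - 1, by omega, by omega, ?_⟩
      rw [h1]
      push_cast
      constructor <;> linarith
    · refine ⟨⌊u⌋, Int.floor_nonneg.2 hu.1, ?_, Int.floor_le u, (Int.lt_floor_add_one u).le⟩
      have : ⌊u⌋ < ((2 * K : ℕ) : ℤ) := Int.floor_lt.2 (by exact_mod_cast h1)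
      push_cast at this
      omega
  have hn0' : (0 : ℝ) ≤ n := by exact_mod_cast hn0
  have hnN' : (n : ℝ) + 1 ≤ 2 * K := by exact_mod_cast hnN
  have s1 := samp_int (N := 2 * K) (p := p) hN (lp_om h v₀ v) (n := n) hn0 (by push_cast; omega)
  have s2 := samp_int (N := 2 * K) (p := p) hN (lp_om h v₀ v) (n := n + 1) (by omega)
    (by push_cast; omega)
  rw [bar_eq hm hδ2 hmem.1 n hun]
  have ecast : ((n : ZMod (2 * K)) + 1) = ((n + 1 : ℤ) : ZMod (2 * K)) := by push_cast; rfl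
  rw [ecast, s1, s2]
  push_cast
  -- both points are on the minimal geodesic of the side
  have hhalf : (0 ≤ n * δ ∧ (n + 1) * δ ≤ dist p q) ∨
      (dist p q ≤ n * δ ∧ (n + 1) * δ ≤ 2 * dist p q) := by
    rcases lt_or_ge n (K : ℤ) with h1 | h1
    · left
      refine ⟨by positivity, ?_⟩
      rw [← hK]
      have : (n : ℝ) + 1 ≤ K := by exact_mod_cast h1
      exact mul_le_mul_of_nonneg_right this hδ.le
    · right
      constructor
      · rw [← hK]
        have : (K : ℝ) ≤ n := by exact_mod_cast h1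
        exact mul_le_mul_of_nonneg_right this hδ.le
      · have : ((n : ℝ) + 1) * δ ≤ (2 * K) * δ := mul_le_mul_of_nonneg_right hnN' hδ.le
        linarith
  have hab : n * δ ≤ (n + 1) * δ := by nlinarith
  have L := fun {s t : ℝ} => lp_len h v₀ v (s := s) (t := t) hab hhalf
  have ha : (n : ℝ) * δ ∈ Icc ((n : ℝ) * δ) ((n + 1) * δ) := ⟨le_rfl, hab⟩
  have hb : ((n : ℝ) + 1) * δ ∈ Icc ((n : ℝ) * δ) ((n + 1) * δ) := ⟨hab, le_rfl⟩
  have huI : u * δ ∈ Icc ((n : ℝ) * δ) ((n + 1) * δ) :=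
    ⟨mul_le_mul_of_nonneg_right hun.1 hδ.le, mul_le_mul_of_nonneg_right hun.2 hδ.le⟩
  have hside : dist (lp F v₀ v (n * δ)) (lp F v₀ v ((n + 1) * δ)) = δ := by
    rw [L ha hb, show (n : ℝ) * δ - (n + 1) * δ = -δ by ring, abs_neg, abs_of_pos hδ]
  have hx1 : dist (lp F v₀ v (n * δ)) (lp F v₀ v (u * δ)) = (u - n) * δ := by
    rw [L ha huI, show (n : ℝ) * δ - u * δ = -((u - n) * δ) by ring, abs_neg,
      abs_of_nonneg (mul_nonneg (by linarith [hun.1]) hδ.le)]
  have hx2 : dist (lp F v₀ v (u * δ)) (lp F v₀ v ((n + 1) * δ)) = (n + 1 - u) * δ := by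
    rw [L huI hb, show u * δ - ((n : ℝ) + 1) * δ = -((n + 1 - u) * δ) by ring, abs_neg,
      abs_of_nonneg (mul_nonneg (by linarith [hun.2]) hδ.le)]
  have hle : dist (lp F v₀ v (n * δ)) (lp F v₀ v ((n + 1) * δ)) ≤ r' := by rw [hside]; exact hδ2
  have h0I : (0 : ℝ) ∈ Icc (0 : ℝ) 1 := by constructor <;> norm_num
  have h1I : (1 : ℝ) ∈ Icc (0 : ℝ) 1 := by constructor <;> norm_num
  have huI' : u - n ∈ Icc (0 : ℝ) 1 := ⟨by linarith [hun.1], by linarith [hun.2]⟩
  have hy1 : dist (lp F v₀ v (n * δ)) (m (lp F v₀ v (n * δ)) (lp F v₀ v ((n + 1) * δ)) (u - n)) =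
      (u - n) * δ := by
    have e := hm.dist_eq _ _ hle 0 h0I (u - n) huI'
    rw [hm.zero _ _ hle, hside, zero_sub, abs_neg, abs_of_nonneg huI'.1] at e
    exact e
  have hy2 : dist (m (lp F v₀ v (n * δ)) (lp F v₀ v ((n + 1) * δ)) (u - n))
      (lp F v₀ v ((n + 1) * δ)) = (n + 1 - u) * δ := by
    have e := hm.dist_eq _ _ hle (u - n) huI' 1 h1I
    rw [hm.one _ _ hle, hside, abs_of_nonpos (by linarith [huI'.2])] at e
    rw [e]; ring
  refine hU _ _ _ _ (by rw [hside]; exact hδ1) ?_ ?_ (by rw [hy1, hx1])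
  · rw [hy1, hy2, hside]; ring
  · rw [hx1, hx2, hside]; ring

end

/-- Short closed geodesic, or the space is contractible. -/
theorem two_poles {X : Type} [MetricSpace X] [CompactSpace X] {p q : X} {r : ℝ} (hr : 0 < r)
    (hX : GeodSpace X) (hU : UniqGeod X r) (hp : Poles X p q) (hc : ¬ ContractibleSpace X) :
    ClosedGeod X (2 * dist p q) := by
  classical
  by_contra hno
  apply hc
  have hd : 0 < dist p q := dist_pos.2 hp.ne
  obtain ⟨F, hF⟩ := hp.exists_F hX
  have h : Fam p q F := ⟨hp, fun v => (hF v).1, fun v => (hF v).2⟩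
  obtain ⟨v₀, -⟩ := h.surj hX p
  obtain ⟨m, hm⟩ := Pool.Agent.Y467.GE.t_MG X r hr hX hU
  have hr2 : 0 < r / 2 := by linarith
  obtain ⟨K, hKr⟩ := exists_nat_gt (dist p q / (r / 2))
  have hK0 : (0 : ℝ) < K := lt_trans (by positivity) hKr
  have hK' : K ≠ 0 := by rintro rfl; simp at hK0
  have : NeZero (2 * K) := ⟨by omega⟩
  set δ := dist p q / K with hδ
  have hδ0 : 0 < δ := by positivity
  have hKδ : K * δ = dist p q := mul_div_cancel₀ _ hK0.ne'
  have hδr : δ ≤ r / 2 := by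
    rw [hδ, div_le_iff₀ hK0]
    rw [div_lt_iff₀ hr2] at hKr
    linarith
  have hN : ((2 * K : ℕ) : ℝ) * δ = 2 * dist p q := by push_cast; linarith
  have hBK := Pool.Agent.Y590.GE.t_BK Pool.Agent.Y812.GE.t_EN X (r / 2) m hm (2 * K) δ hδ0 hδr
    (by
      intro x hx hE hEq
      apply hno
      have e := Pool.Agent.Y165.GE.t_CG X (r / 2) m hm (2 * K) δ hδr x hx hEq
        (lt_of_lt_of_le (by positivity) hE)
      rwa [hN] at e)
  obtain ⟨cen, H, Hc, HT, H0, H1, -⟩ := hBK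
  have hmem : ∀ v, samp (2 * K) δ (lp F v₀ v) ∈ Pol X (2 * K) δ := fun v =>
    (samp_mem (p := p) hδ0.le hN (lp_om h v₀ v)).1
  set sv : Mid p q → ↥(Pol X (2 * K) δ) := fun v => ⟨samp (2 * K) δ (lp F v₀ v), hmem v⟩ with hsv
  have hsvc : Continuous sv := by
    refine Continuous.subtype_mk (continuous_pi fun i => ?_) _
    exact lp_cont h v₀ _
  refine contr h hX v₀ (fun v σ θ => bar m (2 * K) (H (sv v) σ) (((2 * K : ℕ) : ℝ) * θ))
    ⟨?_, ?_, ?_, ?_, ?_⟩
  · -- continuity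
    rw [continuous_iff_continuousAt]
    rintro ⟨v, σ, θ⟩
    have c1 : Continuous fun z : Mid p q × ℝ × ℝ =>
        bar m (2 * K) (H (sv z.1) z.2.1) (((2 * K : ℕ) : ℝ) * θ) := by
      refine bar_cont hm hδr (F := fun z : Mid p q × ℝ × ℝ => H (sv z.1) z.2.1) ?_
        (fun z => HT _ _) _
      exact Hc.comp ((hsvc.comp continuous_fst).prodMk (continuous_fst.comp continuous_snd))
    have c2 : Filter.Tendsto (fun z : Mid p q × ℝ × ℝ =>
        dist (bar m (2 * K) (H (sv z.1) z.2.1) (((2 * K : ℕ) : ℝ) * z.2.2))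
          (bar m (2 * K) (H (sv z.1) z.2.1) (((2 * K : ℕ) : ℝ) * θ))) (𝓝 (v, σ, θ)) (𝓝 0) := by
      have c3 : Continuous fun z : Mid p q × ℝ × ℝ =>
          δ * |((2 * K : ℕ) : ℝ) * z.2.2 - ((2 * K : ℕ) : ℝ) * θ| := by fun_prop
      have c4 := c3.tendsto (v, σ, θ)
      simp only [sub_self, abs_zero, mul_zero] at c4
      exact squeeze_zero (fun _ => dist_nonneg) (fun z => bar_lip hm hδr (HT _ _) _ _) c4
    rw [ContinuousAt, tendsto_iff_dist_tendsto_zero]
    have c5 := tendsto_iff_dist_tendsto_zero.1 (c1.tendsto (v, σ, θ))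
    have c6 := c2.add c5
    rw [add_zero] at c6
    exact squeeze_zero (fun _ => dist_nonneg) (fun z => dist_triangle _ _ _) c6
  · intro v t ht
    simp only [H0 (sv v) 0 le_rfl]
    have e1 : ((2 * K : ℕ) : ℝ) * (t / 2) ∈ Icc (0 : ℝ) ((2 * K : ℕ) : ℝ) := by
      constructor
      · exact mul_nonneg (Nat.cast_nonneg _) (by linarith [ht.1])
      · have := mul_le_mul_of_nonneg_left (show t / 2 ≤ 1 by linarith [ht.2])
          (Nat.cast_nonneg (α := ℝ) (2 * K))
        linarith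
    rw [hsv]
    simp only
    rw [bar_lp h v₀ v hU hm hδ0 hKδ (by linarith) hδr e1]
    have e2 : ((2 * K : ℕ) : ℝ) * (t / 2) * δ = t * dist p q := by
      rw [← hKδ]; push_cast; ring
    rw [e2, lp_left h v₀ v (by nlinarith [ht.2]), mul_div_cancel_right₀ _ hd.ne', ci_of ht]
  · intro v t ht
    simp only [H0 (sv v) 0 le_rfl]
    have e1 : ((2 * K : ℕ) : ℝ) * (1 - t / 2) ∈ Icc (0 : ℝ) ((2 * K : ℕ) : ℝ) := by
      constructor
      · exact mul_nonneg (Nat.cast_nonneg _) (by linarith [ht.2])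
      · have := mul_le_mul_of_nonneg_left (show 1 - t / 2 ≤ 1 by linarith [ht.1])
          (Nat.cast_nonneg (α := ℝ) (2 * K))
        linarith
    rw [hsv]
    simp only
    rw [bar_lp h v₀ v hU hm hδ0 hKδ (by linarith) hδr e1]
    have e2 : ((2 * K : ℕ) : ℝ) * (1 - t / 2) * δ = 2 * dist p q - t * dist p q := by
      rw [← hKδ]; push_cast; ring
    rw [e2, lp_right h v₀ v (by nlinarith [ht.2]),
      show 2 * dist p q - (2 * dist p q - t * dist p q) = t * dist p q by ring,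
      mul_div_cancel_right₀ _ hd.ne', ci_of ht]
  · intro v σ θ
    have e1 : ((2 * K : ℕ) : ℝ) * (θ + 1) = ((2 * K : ℕ) : ℝ) * θ + ((2 * K : ℕ) : ℝ) := by ring
    simp only [bar]
    rw [e1, Int.floor_add_natCast, Int.fract_add_natCast]
    have e2 : (((⌊((2 * K : ℕ) : ℝ) * θ⌋ + ((2 * K : ℕ) : ℤ) : ℤ)) : ZMod (2 * K)) =
        ((⌊((2 * K : ℕ) : ℝ) * θ⌋ : ℤ) : ZMod (2 * K)) := by
      rw [Int.cast_add, Int.cast_natCast, ZMod.natCast_self, add_zero]
    rw [e2]
  · intro v θ θ'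
    simp only [bar, H1 (sv v) 1 le_rfl]
    rw [hm.self hr2.le _ ⟨Int.fract_nonneg _, (Int.fract_lt_one _).le⟩,
      hm.self hr2.le _ ⟨Int.fract_nonneg _, (Int.fract_lt_one _).le⟩]

end Pool.Agent.Run7.h247.SG
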