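import Pool.Agent.Y489.GE.Stm

/-!
# Spaces in which all points lie on minimal geodesics between two points (for MP_3eff7f_gt)
-/

set_option autoImplicit false

open Set Topology

namespace Pool.Agent.Run7.h247.SG

open Pool.Agent.Y489.GE

theorem cont_of_graph {Y X : Type} [TopologicalSpace Y] [TopologicalSpace X] [CompactSpace X]
    (f : Y → X) (G : Set (Y × X)) (hG : IsClosed G) (h : ∀ y x, (y, x) ∈ G ↔ x = f y) :
    Continuous f := by
  rw [continuous_iff_isClosed]
  intro C hC
  have h1 : f ⁻¹' C = Prod.fst '' (G ∩ Prod.snd ⁻¹' C) := by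
    ext y
    constructor
    · intro hy
      exact ⟨(y, f y), ⟨(h y (f y)).2 rfl, hy⟩, rfl⟩
    · rintro ⟨⟨y', x⟩, ⟨h2, h3⟩, rfl⟩
      have h4 := (h y' x).1 h2
      have h5 : x ∈ C := h3
      rw [h4] at h5
      exact h5
  rw [h1]
  exact isClosedMap_fst_of_compactSpace _ (hG.inter (hC.preimage continuous_snd))

/-- Every point lies on a minimal geodesic from `p` to `q`, and the minimal geodesics from `p` to
`x ≠ q` and from `x ≠ p` to `q` are unique. -/
structure Poles (X : Type) [MetricSpace X] (p q : X) : Prop where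
  ne : p ≠ q
  sum : ∀ x, dist p x + dist x q = dist p q
  up : ∀ x z w, x ≠ q → dist p z + dist z x = dist p x → dist p w + dist w x = dist p x →
    dist p z = dist p w → z = w
  uq : ∀ x z w, x ≠ p → dist x z + dist z q = dist x q → dist x w + dist w q = dist x q →
    dist x z = dist x w → z = w

/-- the points in the middle -/
abbrev Mid {X : Type} [MetricSpace X] (p q : X) : Type := {v : X // dist p v = dist p q / 2}

section

variable {X : Type} [MetricSpace X] [CompactSpace X] {p q : X}

theorem Poles.rel_unique (h : Poles X p q) {v z w : X} (hv : dist p v = dist p q / 2) {t : ℝ}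
    (h1 : dist p z = t * dist p q) (h2 : dist v z = |t - 1 / 2| * dist p q)
    (h3 : dist p w = t * dist p q) (h4 : dist v w = |t - 1 / 2| * dist p q) : z = w := by
  have hd : 0 < dist p q := dist_pos.2 h.ne
  have hvq : dist v q = dist p q / 2 := by have := h.sum v; linarith
  rcases le_total t (1 / 2) with ht | ht
  · rw [abs_of_nonpos (by linarith)] at h2 h4
    refine h.up v z w ?_ ?_ ?_ (by rw [h1, h3])
    · intro hh
      rw [hh, dist_self] at hvq
      linarith
    · rw [dist_comm z v, h1, h2, hv]; ring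
    · rw [dist_comm w v, h3, h4, hv]; ring
  · rw [abs_of_nonneg (by linarith)] at h2 h4
    refine h.uq v z w ?_ ?_ ?_ (by rw [h2, h4])
    · intro hh
      rw [hh, dist_self] at hv
      linarith
    · have := h.sum z
      rw [h2, hvq]; rw [h1] at this; linarith
    · have := h.sum w
      rw [h4, hvq]; rw [h3] at this; linarith

/-- the geodesics from `p` to `q` -/
theorem Poles.exists_F (h : Poles X p q) (hX : GeodSpace X) :
    ∃ F : Mid p q → ℝ → X, ∀ v, (∀ t ∈ Icc (0 : ℝ) 1, dist p (F v t) = t * dist p q ∧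
      dist v.1 (F v t) = |t - 1 / 2| * dist p q) ∧
      ∀ s ∈ Icc (0 : ℝ) 1, ∀ t ∈ Icc (0 : ℝ) 1, dist (F v s) (F v t) = |s - t| * dist p q := by
  have key : ∀ v : Mid p q, ∃ f : ℝ → X, (∀ t ∈ Icc (0 : ℝ) 1, dist p (f t) = t * dist p q ∧
      dist v.1 (f t) = |t - 1 / 2| * dist p q) ∧
      ∀ s ∈ Icc (0 : ℝ) 1, ∀ t ∈ Icc (0 : ℝ) 1, dist (f s) (f t) = |s - t| * dist p q := by
    rintro ⟨v, hv⟩
    have hvq : dist v q = dist p q / 2 := by have := h.sum v; linarith
    obtain ⟨a, ha0, ha1, ha⟩ := hX p v
    obtain ⟨b, hb0, hb1, hb⟩ := hX v q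
    set f : ℝ → X := fun t => if t ≤ 1 / 2 then a (2 * t) else b (2 * t - 1) with hf
    have h0I : (0 : ℝ) ∈ Icc (0 : ℝ) 1 := by constructor <;> norm_num
    have h1I : (1 : ℝ) ∈ Icc (0 : ℝ) 1 := by constructor <;> norm_num
    have hd0 : 0 ≤ dist p q := dist_nonneg
    have hl : ∀ t ∈ Icc (0 : ℝ) 1, t ≤ 1 / 2 → dist p (f t) = t * dist p q ∧
        dist v (f t) = |t - 1 / 2| * dist p q := by
      intro t ht h2
      have hI : 2 * t ∈ Icc (0 : ℝ) 1 := ⟨by linarith [ht.1], by linarith⟩
      have e : f t = a (2 * t) := by simp only [hf, if_pos h2]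
      constructor
      · rw [e]
        conv_lhs => rw [← ha0]
        rw [ha 0 h0I _ hI, hv, zero_sub, abs_neg, abs_of_nonneg hI.1]; ring
      · rw [e]
        conv_lhs => rw [← ha1]
        rw [ha 1 h1I _ hI, hv, abs_of_nonneg (by linarith [hI.2]), abs_of_nonpos (by linarith)]
        ring
    have hr : ∀ t ∈ Icc (0 : ℝ) 1, 1 / 2 ≤ t → f t = b (2 * t - 1) := by
      intro t ht h2
      rcases eq_or_lt_of_le h2 with h3 | h3
      · have e : f t = a (2 * t) := by simp only [hf, if_pos h3.ge]
        rw [e, ← h3]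
        rw [show (2 : ℝ) * (1 / 2) = 1 by norm_num, sub_self, ha1, hb0]
      · simp only [hf, if_neg (not_le.2 h3)]
    have hr2 : ∀ t ∈ Icc (0 : ℝ) 1, 1 / 2 ≤ t → dist p (f t) = t * dist p q ∧
        dist v (f t) = |t - 1 / 2| * dist p q := by
      intro t ht h2
      have hI : 2 * t - 1 ∈ Icc (0 : ℝ) 1 := ⟨by linarith, by linarith [ht.2]⟩
      constructor
      · have h3 := h.sum (f t)
        have h4 : dist (f t) q = (1 - t) * dist p q := by
          rw [hr t ht h2]
          conv_lhs => rw [← hb1]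
          rw [hb _ hI 1 h1I, hvq, abs_of_nonpos (by linarith [hI.2])]; ring
        linarith
      · rw [hr t ht h2]
        conv_lhs => rw [← hb0]
        rw [hb 0 h0I _ hI, hvq, zero_sub, abs_neg, abs_of_nonneg hI.1,
          abs_of_nonneg (by linarith)]
        ring
    have hall : ∀ t ∈ Icc (0 : ℝ) 1, dist p (f t) = t * dist p q ∧
        dist v (f t) = |t - 1 / 2| * dist p q := fun t ht =>
      (le_total t (1 / 2)).elim (hl t ht) (hr2 t ht)
    refine ⟨f, hall, ?_⟩
    -- distances
    have hup : ∀ s ∈ Icc (0 : ℝ) 1, ∀ t ∈ Icc (0 : ℝ) 1, s ≤ t →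
        dist (f s) (f t) ≤ (t - s) * dist p q := by
      intro s hs t ht hst
      rcases le_total t (1 / 2) with h1 | h1
      · have e1 : f s = a (2 * s) := by simp only [hf, if_pos (hst.trans h1)]
        have e2 : f t = a (2 * t) := by simp only [hf, if_pos h1]
        rw [e1, e2, ha _ ⟨by linarith [hs.1], by linarith⟩ _ ⟨by linarith [ht.1], by linarith⟩,
          hv, abs_of_nonpos (by linarith)]
        linarith
      · rcases le_total s (1 / 2) with h2 | h2
        · have e1 := (hall s hs).2
          have e2 := (hall t ht).2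
          rw [abs_of_nonpos (by linarith)] at e1
          rw [abs_of_nonneg (by linarith)] at e2
          have e3 := dist_triangle (f s) v (f t)
          rw [dist_comm (f s) v, e1, e2] at e3
          linarith
        · rw [hr s hs h2, hr t ht h1, hb _ ⟨by linarith, by linarith [hs.2]⟩ _
            ⟨by linarith, by linarith [ht.2]⟩, hvq, abs_of_nonpos (by linarith)]
          linarith
    have hlow : ∀ s ∈ Icc (0 : ℝ) 1, ∀ t ∈ Icc (0 : ℝ) 1, s ≤ t →
        dist (f s) (f t) = (t - s) * dist p q := by
      intro s hs t ht hst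
      refine le_antisymm (hup s hs t ht hst) ?_
      have e3 := dist_triangle p (f s) (f t)
      rw [(hall s hs).1, (hall t ht).1] at e3
      linarith
    intro s hs t ht
    rcases le_total s t with h1 | h1
    · rw [abs_sub_comm, abs_of_nonneg (by linarith), hlow s hs t ht h1]
    · rw [abs_of_nonneg (by linarith), dist_comm, hlow t ht s hs h1]
  choose F hF using key
  exact ⟨F, hF⟩

end

end Pool.Agent.Run7.h247.SG
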